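import Pool.Agent.P.MP_ba1811_co.Main

open Filter Topology Pool.Agent.P.MP_ba1811_co

/-- For every odd prime `p` and every positive `g`, the normalised least size of a `g`-fold
difference basis of `(ZMod p) ^ n` tends to the square root of `g` both along even `n` and along
odd `n`; in particular the two limits are always equal. -/
theorem Pool.Agent.Results.MP_ba1811_co.LimitsEqual.result (p : ℕ) (hp : p.Prime) (hodd : Odd p)
    (g : ℕ) (hg : 0 < g) :
    Tendsto (fun k : ℕ => (eta g (Fin (2 * k) → ZMod p) : ℝ) / √((p : ℝ) ^ (2 * k)))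
      atTop (𝓝 √(g : ℝ)) ∧
    Tendsto (fun k : ℕ => (eta g (Fin (2 * k + 1) → ZMod p) : ℝ) / √((p : ℝ) ^ (2 * k + 1)))
      atTop (𝓝 √(g : ℝ)) :=
  have : Fact p.Prime := ⟨hp⟩
  ⟨tendsto_parity p hodd g hg 0, tendsto_parity p hodd g hg 1⟩
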